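import Mathlib
import Pool.Agent.Helper18.UW.GoalsA

/-!
# Project UW (MP_d3128a_ag), packet SEL: the selection lemma
-/

set_option autoImplicit false

namespace Pool.Agent.Helper95.UW

open Finset
open Pool.Agent.Helper18.UW

lemma sel_blocks (sz : List ℕ) : ∀ (F : Finset ℕ), sz.sum ≤ F.card →
    ∃ bs : List (Finset ℕ), bs.map Finset.card = sz ∧ bs.Pairwise Disjoint ∧
      ∀ B ∈ bs, B ⊆ F := by
  induction sz with
  | nil => intro F _; exact ⟨[], rfl, List.Pairwise.nil, by simp⟩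
  | cons n sz ih =>
    intro F hF
    rw [List.sum_cons] at hF
    obtain ⟨B, hB, hc⟩ := Finset.exists_subset_card_eq (s := F) (n := n) (by omega)
    obtain ⟨bs, h1, h2, h3⟩ := ih (F \ B) (by
      rw [Finset.card_sdiff_of_subset hB]; omega)
    refine ⟨B :: bs, by simp [hc, h1], ?_, ?_⟩
    · rw [List.pairwise_cons]
      exact ⟨fun C hC => (Finset.disjoint_sdiff).mono_right (h3 C hC), h2⟩
    · intro C hC
      rcases List.mem_cons.mp hC with rfl | hC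
      · exact hB
      · exact (h3 C hC).trans Finset.sdiff_subset

lemma sel_union (u : ℕ → ℝ) (F : Finset ℕ) : ∀ (bs : List (Finset ℕ)),
    bs.Pairwise Disjoint → (∀ B ∈ bs, B ⊆ F) →
    ∃ J : Finset ℕ, J ⊆ F ∧ (∀ C : Finset ℕ, (∀ B ∈ bs, Disjoint C B) → Disjoint C J) ∧
      (bs.map (fun B => ∑ k ∈ B, u k)).sum = ∑ k ∈ J, u k := by
  intro bs
  induction bs with
  | nil => intro _ _; exact ⟨∅, by simp, by simp, by simp⟩
  | cons B bs ih =>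
    intro hp hF
    rw [List.pairwise_cons] at hp
    obtain ⟨J, h1, h2, h3⟩ := ih hp.2 (fun C hC => hF C (List.mem_cons_of_mem _ hC))
    have hd : Disjoint B J := h2 B hp.1
    refine ⟨B ∪ J, Finset.union_subset (hF B (List.mem_cons_self)) h1, ?_, ?_⟩
    · intro C hC
      rw [Finset.disjoint_union_right]
      exact ⟨hC B (List.mem_cons_self), h2 C (fun D hD => hC D (List.mem_cons_of_mem _ hD))⟩
    · rw [List.map_cons, List.sum_cons, h3, Finset.sum_union hd]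

/-- the bounds for the product and the sum of the list -/
lemma sel_prod (u : ℕ → ℝ) (F : Finset ℕ) (lo hi : ℝ) (h0 : 0 ≤ lo)
    (hu : ∀ k ∈ F, lo ≤ u k ∧ u k ≤ hi) : ∀ (bs : List (Finset ℕ)), (∀ B ∈ bs, B ⊆ F) →
    (((bs.map Finset.card).prod : ℕ) : ℝ) * lo ^ bs.length ≤
      (bs.map (fun B => ∑ k ∈ B, u k)).prod ∧
    (bs.map (fun B => ∑ k ∈ B, u k)).prod ≤
      (((bs.map Finset.card).prod : ℕ) : ℝ) * hi ^ bs.length ∧
    (bs.map (fun B => ∑ k ∈ B, u k)).sum ≤ (((bs.map Finset.card).sum : ℕ) : ℝ) * hi ∧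
    0 ≤ (bs.map (fun B => ∑ k ∈ B, u k)).prod := by
  intro bs
  induction bs with
  | nil => intro _; simp
  | cons B bs ih =>
    intro hF
    obtain ⟨i1, i2, i3, i4⟩ := ih (fun C hC => hF C (List.mem_cons_of_mem _ hC))
    have hB : B ⊆ F := hF B (List.mem_cons_self)
    have b1 : (B.card : ℝ) * lo ≤ ∑ k ∈ B, u k := by
      rw [← nsmul_eq_mul]
      exact Finset.card_nsmul_le_sum B u lo (fun k hk => (hu k (hB hk)).1)
    have b2 : ∑ k ∈ B, u k ≤ (B.card : ℝ) * hi := by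
      rw [← nsmul_eq_mul]
      exact Finset.sum_le_card_nsmul B u hi (fun k hk => (hu k (hB hk)).2)
    have b0 : 0 ≤ (B.card : ℝ) * lo := by positivity
    have c0 : 0 ≤ (((bs.map Finset.card).prod : ℕ) : ℝ) * lo ^ bs.length := by positivity
    simp only [List.map_cons, List.prod_cons, List.sum_cons, List.length_cons, Nat.cast_mul,
      Nat.cast_add]
    refine ⟨?_, ?_, ?_, ?_⟩
    · calc (B.card : ℝ) * (((bs.map Finset.card).prod : ℕ) : ℝ) * lo ^ (bs.length + 1)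
          = ((B.card : ℝ) * lo) * ((((bs.map Finset.card).prod : ℕ) : ℝ) * lo ^ bs.length) := by
            ring
        _ ≤ _ := mul_le_mul b1 i1 c0 (b0.trans b1)
    · calc (∑ k ∈ B, u k) * (bs.map (fun B => ∑ k ∈ B, u k)).prod
          ≤ ((B.card : ℝ) * hi) * ((((bs.map Finset.card).prod : ℕ) : ℝ) * hi ^ bs.length) :=
            mul_le_mul b2 i2 i4 ((b0.trans b1).trans b2)
        _ = _ := by ring
    · nlinarith [b2, i3]
    · exact mul_nonneg (b0.trans b1) i4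

lemma sel_bern (a : ℝ) (k : ℕ) (h0 : 0 ≤ a) (h : k * a ≤ 1 / 4) (h1 : a ≤ 1) :
    (1 + a) ^ k ≤ 4 / 3 := by
  have h2 : (3 / 4 : ℝ) ≤ (1 - a) ^ k := by
    have := one_add_mul_le_pow (a := -a) (by linarith) k
    have h3 : (1 + -a) = 1 - a := by ring
    rw [h3] at this
    linarith
  have h3 : (1 + a) ^ k * (1 - a) ^ k ≤ 1 := by
    rw [← mul_pow]
    apply pow_le_one₀
    · have : 0 ≤ 1 - a := by linarith
      positivity
    · nlinarith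
  have h4 : 0 ≤ (1 + a) ^ k := by positivity
  nlinarith

lemma sel_bern2 (a : ℝ) (k : ℕ) (h : k * a ≤ 1 / 8) (h1 : a ≤ 1) :
    3 / 4 ≤ ((1 - a) ^ 2) ^ k := by
  have := one_add_mul_le_pow (a := -a) (by linarith) (2 * k)
  have h3 : (1 + -a) = 1 - a := by ring
  rw [h3, pow_mul] at this
  push_cast at this
  linarith

lemma sel_two (m : ℕ) : 2 * (m + 1).choose 2 = m * (m + 1) := by
  have := Nat.add_one_mul_choose_eq m 1
  rw [Nat.choose_one_right] at this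
  have e : (1 + 1 : ℕ) = 2 := rfl
  rw [e] at this
  linarith [this, Nat.mul_comm m (m + 1)]

/-- the power `ξ ^ (1/2 - k)` -/
lemma sel_xi (k : ℕ) (S η ξ : ℝ) (hk : 1 ≤ k) (hS : 0 < S) (h0 : 0 ≤ η) (h1 : 4 * S ^ 2 ≤ ξ)
    (h2 : ξ ≤ 4 * S ^ 2 * (1 + η)) (h3 : k * η ≤ 1 / 4) (h4 : η ≤ 1) :
    ξ ^ ((1 / 2 : ℝ) - k) ≤ 2 * S / (4 * S ^ 2) ^ k ∧
    3 / 4 * (2 * S / (4 * S ^ 2) ^ k) ≤ ξ ^ ((1 / 2 : ℝ) - k) := by
  have hX : (0 : ℝ) < 4 * S ^ 2 := by positivity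
  have hξ : 0 < ξ := hX.trans_le h1
  have e1 : (4 * S ^ 2 : ℝ) ^ (1 / 2 : ℝ) = 2 * S := by
    rw [← Real.sqrt_eq_rpow]
    have : (4 * S ^ 2 : ℝ) = (2 * S) ^ 2 := by ring
    rw [this, Real.sqrt_sq (by positivity)]
  constructor
  · calc ξ ^ ((1 / 2 : ℝ) - k) ≤ (4 * S ^ 2) ^ ((1 / 2 : ℝ) - k) := by
          apply Real.rpow_le_rpow_of_nonpos hX h1
          have : (1 : ℝ) ≤ k := by exact_mod_cast hk
          linarith
      _ = 2 * S / (4 * S ^ 2) ^ k := by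
          rw [Real.rpow_sub hX, e1, Real.rpow_natCast]
  · have hb := sel_bern η k h0 h3 h4
    have hp : ξ ^ k ≤ (4 * S ^ 2) ^ k * (4 / 3) := by
      calc ξ ^ k ≤ (4 * S ^ 2 * (1 + η)) ^ k := pow_le_pow_left₀ hξ.le h2 k
        _ = (4 * S ^ 2) ^ k * (1 + η) ^ k := mul_pow _ _ _
        _ ≤ _ := mul_le_mul_of_nonneg_left hb (by positivity)
    have hq : 2 * S ≤ ξ ^ (1 / 2 : ℝ) := by
      rw [← e1]
      exact Real.rpow_le_rpow hX.le h1 (by norm_num)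
    rw [Real.rpow_sub hξ, Real.rpow_natCast]
    have hk0 : 0 < ξ ^ k := by positivity
    have hP0 : 0 < (4 * S ^ 2) ^ k := by positivity
    calc 3 / 4 * (2 * S / (4 * S ^ 2) ^ k) = 2 * S / ((4 * S ^ 2) ^ k * (4 / 3)) := by
          field_simp
      _ ≤ 2 * S / ξ ^ k := div_le_div_of_nonneg_left (by positivity) hk0 hp
      _ ≤ ξ ^ (1 / 2 : ℝ) / ξ ^ k := div_le_div_of_nonneg_right hq hk0.le

/-- the size of the iterated difference -/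
lemma sel_size (k : ℕ) (S M D g c η ξ Q : ℝ) (hk : 1 ≤ k) (hS : 0 < S) (hM : 1 ≤ M)
    (hDM : D ≤ M) (hc : 0 ≤ c) (h0 : 0 ≤ η) (h1 : 4 * S ^ 2 ≤ ξ)
    (h2 : ξ ≤ 4 * S ^ 2 * (1 + η)) (h3 : k * η ≤ 1 / 4) (h4 : η ≤ 1)
    (h5 : k * (D / M) ≤ 1 / 8) (h6 : k * (1 / M) ≤ 1 / 4)
    (q1 : g ^ 2 * (4 * (M - D) ^ 2) ^ k ≤ Q) (q2 : Q ≤ g ^ 2 * (4 * M * (M + 1)) ^ k)
    (d1 : 1 / 8 < g ^ 2 * (2 * S * (M ^ 2 / S ^ 2) ^ k * c))
    (d2 : g ^ 2 * (2 * S * (M ^ 2 / S ^ 2) ^ k * c) ≤ 1 / 2) :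
    1 / 16 < Q * c * ξ ^ ((1 / 2 : ℝ) - k) ∧ Q * c * ξ ^ ((1 / 2 : ℝ) - k) ≤ 2 / 3 := by
  obtain ⟨x1, x2⟩ := sel_xi k S η ξ hk hS h0 h1 h2 h3 h4
  have hM0 : 0 < M := by linarith
  have b1 : (1 + 1 / M) ^ k ≤ 4 / 3 :=
    sel_bern (1 / M) k (by positivity) h6 ((div_le_one hM0).mpr hM)
  have b2 : 3 / 4 ≤ ((1 - D / M) ^ 2) ^ k :=
    sel_bern2 (D / M) k h5 ((div_le_one hM0).mpr hDM)
  have e1 : (4 * M * (M + 1)) ^ k = (4 * M ^ 2) ^ k * (1 + 1 / M) ^ k := by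
    rw [← mul_pow]
    congr 1
    field_simp
  have e2 : (4 * (M - D) ^ 2) ^ k = (4 * M ^ 2) ^ k * ((1 - D / M) ^ 2) ^ k := by
    rw [← mul_pow]
    congr 1
    field_simp
  have e3 : (4 * M ^ 2) ^ k * (2 * S / (4 * S ^ 2) ^ k) = 2 * S * (M ^ 2 / S ^ 2) ^ k := by
    have : (M ^ 2 / S ^ 2) = (4 * M ^ 2) / (4 * S ^ 2) := by field_simp
    rw [this, div_pow]
    ring
  have hA0 : 0 ≤ (4 * M ^ 2) ^ k := by positivity
  have hB0 : 0 ≤ 2 * S / (4 * S ^ 2) ^ k := by positivity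
  have hξ0 : 0 ≤ ξ ^ ((1 / 2 : ℝ) - k) := le_trans (by positivity) x2
  have hQ0 : 0 ≤ Q := le_trans (by positivity) q1
  have u1 : Q ≤ g ^ 2 * (4 * M ^ 2) ^ k * (4 / 3) := by
    calc Q ≤ g ^ 2 * (4 * M * (M + 1)) ^ k := q2
      _ = g ^ 2 * (4 * M ^ 2) ^ k * (1 + 1 / M) ^ k := by rw [e1]; ring
      _ ≤ _ := mul_le_mul_of_nonneg_left b1 (by positivity)
  have u2 : g ^ 2 * (4 * M ^ 2) ^ k * (3 / 4) ≤ Q := by
    calc g ^ 2 * (4 * M ^ 2) ^ k * (3 / 4)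
        ≤ g ^ 2 * (4 * M ^ 2) ^ k * ((1 - D / M) ^ 2) ^ k :=
          mul_le_mul_of_nonneg_left b2 (by positivity)
      _ = g ^ 2 * (4 * (M - D) ^ 2) ^ k := by rw [e2]; ring
      _ ≤ Q := q1
  have k1 : g ^ 2 * (4 * M ^ 2) ^ k * c * (2 * S / (4 * S ^ 2) ^ k) =
      g ^ 2 * (2 * S * (M ^ 2 / S ^ 2) ^ k * c) := by rw [← e3]; ring
  constructor
  · calc (1 / 16 : ℝ) < 9 / 16 * (g ^ 2 * (2 * S * (M ^ 2 / S ^ 2) ^ k * c)) := by linarith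
      _ = (g ^ 2 * (4 * M ^ 2) ^ k * (3 / 4) * c) * (3 / 4 * (2 * S / (4 * S ^ 2) ^ k)) := by
          rw [← k1]; ring
      _ ≤ Q * c * ξ ^ ((1 / 2 : ℝ) - k) :=
          mul_le_mul (mul_le_mul_of_nonneg_right u2 hc) x2 (by positivity) (by positivity)
  · calc Q * c * ξ ^ ((1 / 2 : ℝ) - k)
        ≤ (g ^ 2 * (4 * M ^ 2) ^ k * (4 / 3) * c) * (2 * S / (4 * S ^ 2) ^ k) :=
          mul_le_mul (mul_le_mul_of_nonneg_right u1 hc) x1 hξ0 (by positivity)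
      _ = 4 / 3 * (g ^ 2 * (2 * S * (M ^ 2 / S ^ 2) ^ k * c)) := by rw [← k1]; ring
      _ ≤ 2 / 3 := by linarith

/-- the small parameters -/
lemma sel_small (μ δ Lg s1 k g : ℕ) (hμ : 1 ≤ μ) (hL : 1 ≤ Lg)
    (hs : 2 ^ 200 * Lg ^ 3 * μ ≤ s1) (hd : 2 ^ 60 * Lg ^ 2 * δ ≤ μ)
    (h10 : 10 * s1 ≤ μ ^ 2) (hk : k ≤ Lg) (hg : g * μ ≤ 2 * s1) :
    (k : ℝ) * ((δ : ℝ) / μ) ≤ 1 / 8 ∧ (k : ℝ) * (1 / (μ : ℝ)) ≤ 1 / 4 ∧
    (k : ℝ) * ((8 * s1 + 5 + (2 * g + k) * (4 * μ * (μ + 1))) / (4 * (s1 : ℝ) ^ 2)) ≤ 1 / 4 := by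
  have hM : (1 : ℝ) ≤ μ := by exact_mod_cast hμ
  have hL' : (1 : ℝ) ≤ Lg := by exact_mod_cast hL
  have hs' : (2 : ℝ) ^ 200 * Lg ^ 3 * μ ≤ s1 := by exact_mod_cast hs
  have hd' : (2 : ℝ) ^ 60 * Lg ^ 2 * δ ≤ μ := by exact_mod_cast hd
  have h10' : (10 : ℝ) * s1 ≤ μ ^ 2 := by exact_mod_cast h10
  have hk' : (k : ℝ) ≤ Lg := by exact_mod_cast hk
  have hg' : (g : ℝ) * μ ≤ 2 * s1 := by exact_mod_cast hg
  have hk0 : (0 : ℝ) ≤ k := Nat.cast_nonneg k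
  have hg0 : (0 : ℝ) ≤ g := Nat.cast_nonneg g
  have hδ0 : (0 : ℝ) ≤ δ := Nat.cast_nonneg δ
  have hμ0 : (0 : ℝ) < μ := by linarith
  have hLL : (Lg : ℝ) ≤ Lg ^ 2 := by nlinarith
  have hLL3 : (Lg : ℝ) ≤ Lg ^ 3 := by nlinarith [pow_nonneg (by linarith : (0 : ℝ) ≤ Lg) 2]
  have hL1 : (1 : ℝ) ≤ Lg ^ 3 := hL'.trans hLL3
  have hs2 : (2 : ℝ) ^ 200 * μ ≤ s1 := by
    refine le_trans ?_ hs'
    have : (0 : ℝ) < 2 ^ 200 * μ := by positivity
    nlinarith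
  have hs0 : (0 : ℝ) < s1 := lt_of_lt_of_le (by positivity) hs2
  have hs3 : (2 : ℝ) ^ 200 * Lg ≤ s1 := by
    refine le_trans ?_ hs'
    have h1 : (Lg : ℝ) ≤ Lg ^ 3 * μ := by nlinarith [pow_nonneg (by linarith : (0 : ℝ) ≤ Lg) 3]
    calc (2 : ℝ) ^ 200 * Lg ≤ 2 ^ 200 * (Lg ^ 3 * μ) :=
          mul_le_mul_of_nonneg_left h1 (by positivity)
      _ = _ := by ring
  have hμL : (2 : ℝ) ^ 200 * Lg ≤ μ := by
    have h1 : (2 : ℝ) ^ 200 * Lg ^ 3 * μ ≤ μ * μ := by nlinarith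
    have h2 : (2 : ℝ) ^ 200 * Lg ^ 3 ≤ μ := le_of_mul_le_mul_right h1 hμ0
    refine le_trans ?_ h2
    exact mul_le_mul_of_nonneg_left hLL3 (by positivity)
  refine ⟨?_, ?_, ?_⟩
  · rw [mul_div_assoc', div_le_iff₀ hμ0]
    have h1 : (k : ℝ) * δ ≤ Lg ^ 2 * δ := mul_le_mul_of_nonneg_right (hk'.trans hLL) hδ0
    have h2 : (2 : ℝ) ^ 60 * (Lg ^ 2 * δ) ≤ μ := by linarith [hd']
    have h3 : 0 ≤ (Lg : ℝ) ^ 2 * δ := by positivity
    norm_num at h2 ⊢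
    linarith
  · rw [mul_one_div, div_le_iff₀ hμ0]
    norm_num at hμL ⊢
    linarith
  · rw [mul_div_assoc', div_le_iff₀ (by positivity)]
    have a1 : (k : ℝ) * (8 * s1 + 5) ≤ 1 / 4 * s1 ^ 2 := by
      have h1 : (1 : ℝ) ≤ s1 := le_trans (by nlinarith [hs3, hL']) hs3
      have h2 : (k : ℝ) * (8 * s1 + 5) ≤ Lg * (13 * s1) :=
        mul_le_mul hk' (by linarith) (by linarith) (by linarith)
      refine h2.trans ?_
      have h3 : (52 : ℝ) * Lg ≤ s1 := le_trans (by norm_num; linarith) hs3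
      nlinarith
    have hLM : (2 : ℝ) ^ 200 * (Lg * μ) ≤ s1 := by
      refine le_trans ?_ hs'
      calc (2 : ℝ) ^ 200 * (Lg * μ) ≤ 2 ^ 200 * (Lg ^ 3 * μ) :=
            mul_le_mul_of_nonneg_left (mul_le_mul_of_nonneg_right hLL3 hμ0.le) (by positivity)
        _ = _ := by ring
    have hLM0 : (0 : ℝ) ≤ Lg * μ := by positivity
    have hLM2 : (256 : ℝ) * (Lg * μ) ≤ s1 := le_trans (by norm_num; linarith) hLM
    have a2 : (k : ℝ) * ((2 * g + k) * (4 * μ * (μ + 1))) ≤ 3 / 4 * s1 ^ 2 := by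
      have h1 : (4 : ℝ) * μ * (μ + 1) ≤ 8 * (μ * μ) := by nlinarith
      have h2 : ((2 : ℝ) * g + k) * (4 * μ * (μ + 1)) ≤ (2 * g + Lg) * (8 * (μ * μ)) :=
        mul_le_mul (by linarith) h1 (by positivity) (by positivity)
      have h3 : (k : ℝ) * ((2 * g + k) * (4 * μ * (μ + 1))) ≤
          Lg * ((2 * g + Lg) * (8 * (μ * μ))) :=
        mul_le_mul hk' h2 (by positivity) (by linarith)
      refine h3.trans ?_
      have h4 : (Lg : ℝ) * ((2 * g + Lg) * (8 * (μ * μ))) =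
          16 * (Lg * μ) * (g * μ) + 8 * (Lg * μ) ^ 2 := by ring
      rw [h4]
      have h5 : 16 * ((Lg : ℝ) * μ) * (g * μ) ≤ 16 * (Lg * μ) * (2 * s1) :=
        mul_le_mul_of_nonneg_left hg' (by positivity)
      have h6 : 16 * ((Lg : ℝ) * μ) * (2 * s1) ≤ 1 / 4 * s1 ^ 2 := by nlinarith
      have h7 : 8 * ((Lg : ℝ) * μ) ^ 2 ≤ 1 / 4 * s1 ^ 2 := by nlinarith
      have h8 : 0 ≤ (s1 : ℝ) ^ 2 := sq_nonneg _
      linarith
    have e : (k : ℝ) * (8 * s1 + 5 + (2 * g + k) * (4 * μ * (μ + 1))) =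
        (k : ℝ) * (8 * s1 + 5) + (k : ℝ) * ((2 * g + k) * (4 * μ * (μ + 1))) := by ring
    rw [e]
    linarith

/-- `2 ^ k * ε ≤ 1 / 16` -/
lemma sel_eps (μ Lg s1 k W : ℕ) (hμ : 1 ≤ μ) (hL : 1 ≤ Lg)
    (hs : 2 ^ 200 * Lg ^ 3 * μ ≤ s1) (h10 : 10 * s1 ≤ μ ^ 2)
    (hk : 2 ^ (100 * k) ≤ 2 ^ 300 * μ) (hW : μ * W ≤ 2 ^ 100 * Lg ^ 2 * s1) :
    (2 : ℝ) ^ k * (8 * W / s1) ≤ 1 / 16 := by
  have hμL : 2 ^ 200 * Lg ^ 3 ≤ μ := by
    have h1 : 2 ^ 200 * Lg ^ 3 * μ ≤ μ * μ := by nlinarith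
    exact Nat.le_of_mul_le_mul_right h1 (by omega)
  have h1 : 2 ^ k * 2 ^ 107 * Lg ^ 2 ≤ μ := by
    have hL3 : 1 ≤ Lg ^ 3 := Nat.one_le_pow _ _ (by omega)
    have hL23 : Lg ^ 2 ≤ Lg ^ 3 := Nat.pow_le_pow_right hL (by norm_num)
    rcases Nat.lt_or_ge k 3 with hk3 | hk3
    · have h2 : 2 ^ k ≤ 2 ^ 3 := Nat.pow_le_pow_right (by norm_num) hk3.le
      calc 2 ^ k * 2 ^ 107 * Lg ^ 2 ≤ 2 ^ 3 * 2 ^ 107 * Lg ^ 3 :=
            Nat.mul_le_mul (Nat.mul_le_mul_right _ h2) hL23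
        _ ≤ 2 ^ 200 * Lg ^ 3 := Nat.mul_le_mul_right _ (by norm_num)
        _ ≤ μ := hμL
    · obtain ⟨j, rfl⟩ := Nat.exists_eq_add_of_le hk3
      have e : 2 ^ (100 * (3 + j)) = 2 ^ 300 * 2 ^ (100 * j) := by rw [← pow_add]; ring_nf
      rw [e] at hk
      have h2 : 2 ^ (100 * j) ≤ μ := Nat.le_of_mul_le_mul_left hk (by positivity)
      have h3 : (2 ^ j) ^ 3 ≤ μ := by
        rw [← pow_mul]
        exact le_trans (Nat.pow_le_pow_right (by norm_num) (by omega)) h2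
      have h4 : 2 ^ 400 * Lg ^ 6 ≤ μ ^ 2 := by
        calc 2 ^ 400 * Lg ^ 6 = (2 ^ 200 * Lg ^ 3) ^ 2 := by
              rw [mul_pow, ← pow_mul, ← pow_mul]
          _ ≤ μ ^ 2 := Nat.pow_le_pow_left hμL 2
      have h5 : (2 ^ (3 + j) * 2 ^ 107 * Lg ^ 2) ^ 3 ≤ μ ^ 3 := by
        calc (2 ^ (3 + j) * 2 ^ 107 * Lg ^ 2) ^ 3 = (2 ^ j) ^ 3 * (2 ^ 330 * Lg ^ 6) := by
              have e1 : (2 ^ 330 : ℕ) = (2 ^ 3) ^ 3 * (2 ^ 107) ^ 3 := by
                rw [← pow_mul, ← pow_mul, ← pow_add]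
              rw [pow_add, mul_pow, mul_pow, mul_pow, e1, ← pow_mul Lg 2 3]
              generalize (2 ^ 3 : ℕ) = a1
              generalize (2 ^ 107 : ℕ) = a2
              ring
          _ ≤ μ * μ ^ 2 := by
              refine Nat.mul_le_mul h3 (le_trans (Nat.mul_le_mul_right _ ?_) h4)
              exact Nat.pow_le_pow_right (by norm_num) (by norm_num)
          _ = μ ^ 3 := by ring
      exact (Nat.pow_le_pow_iff_left (by norm_num)).mp h5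
  have hs0 : 0 < s1 := lt_of_lt_of_le (by positivity) hs
  have hμ0 : 0 < μ := hμ
  -- `2 ^ k * 2 ^ 7 * W ≤ s1`
  have h2 : 2 ^ k * 2 ^ 7 * W ≤ s1 := by
    have h3 : μ * (2 ^ k * 2 ^ 7 * W) ≤ μ * s1 := by
      calc μ * (2 ^ k * 2 ^ 7 * W) = 2 ^ k * 2 ^ 7 * (μ * W) := by ring
        _ ≤ 2 ^ k * 2 ^ 7 * (2 ^ 100 * Lg ^ 2 * s1) := Nat.mul_le_mul_left _ hW
        _ = (2 ^ k * 2 ^ 107 * Lg ^ 2) * s1 := by ring
        _ ≤ μ * s1 := Nat.mul_le_mul_right _ h1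
    exact Nat.le_of_mul_le_mul_left h3 hμ0
  have h3 : (2 : ℝ) ^ k * 2 ^ 7 * W ≤ s1 := by exact_mod_cast h2
  have hs0' : (0 : ℝ) < s1 := by exact_mod_cast hs0
  rw [mul_div_assoc', div_le_iff₀ hs0']
  nlinarith

/-- the last step: between two triangular numbers -/
lemma sel_last (c s1 W : ℕ) (hs : 1 ≤ s1) (hc : s1 ^ 2 ≤ 2 * c)
    (h : ∀ n : ℤ, 8 * (W : ℝ) / s1 < |Real.sqrt (8 * c + 1) - (2 * n + 1)|) :
    ∃ s : ℕ, 1 ≤ s ∧ s * (s - 1) + 2 * W ≤ 2 * c ∧ 2 * c + 2 * W ≤ s * (s + 1) := by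
  have hr2 : Real.sqrt (8 * c + 1) ^ 2 = 8 * (c : ℝ) + 1 := Real.sq_sqrt (by positivity)
  have hr0 : 0 ≤ Real.sqrt (8 * c + 1) := Real.sqrt_nonneg _
  revert h hr2 hr0
  generalize Real.sqrt (8 * c + 1) = r
  intro h hr2 hr0
  have hs' : (1 : ℝ) ≤ s1 := by exact_mod_cast hs
  have hc' : (s1 : ℝ) ^ 2 ≤ 2 * c := by exact_mod_cast hc
  have hr1 : 2 * (s1 : ℝ) ≤ r := by
    by_contra hlt
    push Not at hlt
    nlinarith
  obtain ⟨s, a1, a2⟩ : ∃ s : ℕ, 2 * (s : ℝ) - 1 ≤ r ∧ r < 2 * s + 1 := by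
    refine ⟨⌊(r + 1) / 2⌋₊, ?_, ?_⟩
    · have := Nat.floor_le (show 0 ≤ (r + 1) / 2 by linarith)
      linarith
    · have := Nat.lt_floor_add_one ((r + 1) / 2)
      linarith
  have b1 : s1 ≤ s := by
    have : (2 * (s1 : ℝ)) < 2 * s + 1 := by linarith
    have h2 : 2 * s1 < 2 * s + 1 := by exact_mod_cast this
    omega
  have b1' : (s1 : ℝ) ≤ s := by exact_mod_cast b1
  have hW0 : (0 : ℝ) ≤ W := Nat.cast_nonneg W
  obtain ⟨ε, hε⟩ : ∃ ε : ℝ, ε = 8 * (W : ℝ) / s1 := ⟨_, rfl⟩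
  have hε0 : 0 ≤ ε := by rw [hε]; positivity
  have hεs : ε * s1 = 8 * W := by rw [hε]; field_simp
  have c1 : ε < r - (2 * s - 1) := by
    have := h ((s : ℤ) - 1)
    rw [← hε] at this
    push_cast at this
    rw [abs_of_nonneg (by linarith)] at this
    linarith
  have c2 : ε < 2 * s + 1 - r := by
    have := h (s : ℤ)
    rw [← hε] at this
    push_cast at this
    rw [abs_of_nonpos (by linarith)] at this
    linarith
  have d0 : ε * s1 ≤ ε * s := mul_le_mul_of_nonneg_left b1' hε0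
  have hεε : ε * 1 ≤ ε * s := mul_le_mul_of_nonneg_left (hs'.trans b1') hε0
  have d1 : (s : ℝ) ^ 2 - s + 2 * W ≤ 2 * c := by
    have e1 : (2 * (s : ℝ) - 1 + ε) ^ 2 ≤ r ^ 2 :=
      pow_le_pow_left₀ (by linarith) (by linarith) 2
    nlinarith
  have d2 : 2 * (c : ℝ) + 2 * W ≤ s ^ 2 + s := by
    have e1 : ε * (2 * s + 1 + r) ≤ (2 * s + 1 - r) * (2 * s + 1 + r) :=
      mul_le_mul_of_nonneg_right c2.le (by linarith)
    have e2 : ε * (2 * s) ≤ ε * (2 * s + 1 + r) :=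
      mul_le_mul_of_nonneg_left (by linarith) hε0
    nlinarith
  obtain ⟨j, rfl⟩ := Nat.exists_eq_add_of_le (hs.trans b1)
  refine ⟨1 + j, by omega, ?_, ?_⟩
  · have : (((1 + j) * j + 2 * W : ℕ) : ℝ) ≤ ((2 * c : ℕ) : ℝ) := by
      push_cast at d1 ⊢
      nlinarith
    have e : 1 + j - 1 = j := by omega
    rw [e]
    exact_mod_cast this
  · have : ((2 * c + 2 * W : ℕ) : ℝ) ≤ (((1 + j) * (1 + j + 1) : ℕ) : ℝ) := by
      push_cast at d2 ⊢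
      nlinarith
    exact_mod_cast this

/-- packet SEL: the selection lemma -/
theorem goalSEL : GoalSEL := by
  intro hMV hA hB A0 F m μ δ Lg s1 W0 hdis hF hc1 hc2 hμ hL hs h10 h128 hδ hFc hW0
  obtain ⟨k, g, hk2, hkL, hk100, hg1, hgμ, hd1, hd2⟩ := hB μ s1 Lg hμ hL hs h10 h128
  have hs0 : 1 ≤ s1 := lt_of_lt_of_le (by positivity) hs
  have hδμ : δ ≤ μ := by
    refine le_trans ?_ hδ
    have : 1 ≤ 2 ^ 60 * Lg ^ 2 := Nat.one_le_iff_ne_zero.mpr (by positivity)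
    nlinarith
  have hδμ2 : δ < μ := by
    rcases Nat.eq_zero_or_pos δ with h | h
    · omega
    · refine lt_of_lt_of_le ?_ hδ
      have : 2 ≤ 2 ^ 60 * Lg ^ 2 := by
        have : 1 ≤ Lg ^ 2 := Nat.one_le_pow _ _ (by omega)
        calc 2 ≤ 2 ^ 60 * 1 := by norm_num
          _ ≤ _ := Nat.mul_le_mul_left _ this
      nlinarith
  -- the blocks
  have hsz : (g :: g :: List.replicate (k - 2) 1).sum = 2 * g + (k - 2) := by
    simp
    omega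
  have hszp : (g :: g :: List.replicate (k - 2) 1).prod = g ^ 2 := by
    simp
    ring
  have hszF : (g :: g :: List.replicate (k - 2) 1).sum ≤ F.card := by
    rw [hsz]
    have h1 : μ * (2 * g + (k - 2)) ≤ μ * F.card := by
      refine le_trans ?_ hFc
      have h2 : μ * (k - 2) ≤ s1 := by
        refine le_trans ?_ hs
        have h3 : k - 2 ≤ 2 ^ 200 * Lg ^ 3 := by
          have h4 : Lg ≤ Lg ^ 3 := Nat.le_self_pow (by norm_num) Lg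
          have h5 : Lg ^ 3 ≤ 2 ^ 200 * Lg ^ 3 := Nat.le_mul_of_pos_left _ (by positivity)
          omega
        calc μ * (k - 2) ≤ μ * (2 ^ 200 * Lg ^ 3) := Nat.mul_le_mul_left _ h3
          _ = _ := by ring
      have h3 : μ * (2 * g) ≤ 4 * s1 := by
        calc μ * (2 * g) = 2 * (g * μ) := by ring
          _ ≤ 4 * s1 := by omega
      calc μ * (2 * g + (k - 2)) = μ * (2 * g) + μ * (k - 2) := by ring
        _ ≤ 6 * s1 := by omega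
    exact Nat.le_of_mul_le_mul_left h1 (by omega)
  obtain ⟨bs, b1, b2, b3⟩ := sel_blocks _ F hszF
  have hlen : bs.length = k := by
    have := congrArg List.length b1
    simp at this
    omega
  obtain ⟨u, hu⟩ : ∃ u : ℕ → ℝ, u = fun i => 4 * (m i : ℝ) * (m i + 1) := ⟨_, rfl⟩
  have hM : (1 : ℝ) ≤ μ := by exact_mod_cast hμ
  have hD : (δ : ℝ) < μ := by exact_mod_cast hδμ2
  have hub : ∀ i ∈ F, 4 * ((μ : ℝ) - δ) ^ 2 ≤ u i ∧ u i ≤ 4 * μ * (μ + 1) := by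
    intro i hi
    obtain ⟨f1, f2⟩ := hF i hi
    have f1' : (μ : ℝ) - δ ≤ m i := by
      have : (μ : ℝ) ≤ m i + δ := by exact_mod_cast f1
      linarith
    have f2' : (m i : ℝ) ≤ μ := by exact_mod_cast f2
    rw [hu]
    have hm0 : (0 : ℝ) ≤ m i := Nat.cast_nonneg _
    constructor
    · have : ((μ : ℝ) - δ) ^ 2 ≤ (m i : ℝ) ^ 2 := pow_le_pow_left₀ (by linarith) f1' 2
      simp only
      nlinarith
    · simp only
      have : (m i : ℝ) * (m i + 1) ≤ μ * (μ + 1) :=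
        mul_le_mul f2' (by linarith) (by linarith) (by linarith)
      nlinarith
  have hu8 : ∀ J : Finset ℕ, ∑ i ∈ J, u i = 8 * ((∑ i ∈ J, (m i + 1).choose 2 : ℕ) : ℝ) := by
    intro J
    rw [Nat.cast_sum, Finset.mul_sum]
    refine Finset.sum_congr rfl (fun i _ => ?_)
    have h2 : (2 : ℝ) * ((m i + 1).choose 2 : ℕ) = m i * (m i + 1) := by
      exact_mod_cast sel_two (m i)
    rw [hu]
    simp only
    linarith
  obtain ⟨p1, p2, p3, -⟩ := sel_prod u F _ _ (by positivity) hub bs b3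
  rw [b1, hszp, hlen] at p1 p2
  rw [b1, hsz] at p3
  obtain ⟨x, hx⟩ : ∃ x : ℝ, x = 8 * ((∑ i ∈ A0, (m i + 1).choose 2 : ℕ) : ℝ) + 1 := ⟨_, rfl⟩
  have hx1 : 4 * (s1 : ℝ) ^ 2 ≤ x := by
    have : ((s1 : ℝ)) ^ 2 ≤ 2 * ((∑ i ∈ A0, (m i + 1).choose 2 : ℕ) : ℝ) := by
      exact_mod_cast hc1
    rw [hx]
    linarith
  have hx2 : x ≤ 4 * ((s1 : ℝ) + 1) ^ 2 + 1 := by
    have : 2 * ((∑ i ∈ A0, (m i + 1).choose 2 : ℕ) : ℝ) ≤ ((s1 : ℝ) + 1) ^ 2 := by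
      exact_mod_cast hc2
    rw [hx]
    linarith
  have hS0 : (0 : ℝ) < s1 := by exact_mod_cast hs0
  have hx0 : 0 < x := lt_of_lt_of_le (by positivity) hx1
  by_contra hcon
  have hall : ∀ l : List ℝ, l.Sublist (bs.map (fun B => ∑ i ∈ B, u i)) →
      ∃ n : ℤ, |Real.sqrt (x + l.sum) - (2 * n + 1)| ≤ 8 * (W0 : ℝ) / s1 := by
    intro l hl
    obtain ⟨bs', hbs', rfl⟩ := List.sublist_map_iff.mp hl
    obtain ⟨J, hJ, -, hJs⟩ := sel_union u F bs' (b2.sublist hbs')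
      (fun B hB => b3 B (hbs'.subset hB))
    by_contra hno
    push Not at hno
    have hdJ : Disjoint A0 J := hdis.mono_right hJ
    have hsum : x + (bs'.map (fun B => ∑ i ∈ B, u i)).sum =
        8 * ((∑ i ∈ A0 ∪ J, (m i + 1).choose 2 : ℕ) : ℝ) + 1 := by
      rw [hJs, hu8, hx, Finset.sum_union hdJ]
      push_cast
      ring
    rw [hsum] at hno
    obtain ⟨s, r1, r2, r3⟩ := sel_last (∑ i ∈ A0 ∪ J, (m i + 1).choose 2) s1 W0 hs0
      (hc1.trans (Nat.mul_le_mul_left _ (Finset.sum_le_sum_of_subset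
        Finset.subset_union_left))) hno
    exact hcon ⟨J, s, hJ, r1, r2, r3⟩
  have hne : bs.map (fun B => ∑ i ∈ B, u i) ≠ [] := by
    intro h
    have := congrArg List.length h
    simp at this
    rw [this] at hlen
    simp at hlen
    omega
  obtain ⟨n, hn⟩ := hA _ x _ hne hall
  have hpos : ∀ h ∈ bs.map (fun B => ∑ i ∈ B, u i), 0 < h := by
    intro h hh
    obtain ⟨B, hB, rfl⟩ := List.mem_map.mp hh
    have hc : B.card ∈ (g :: g :: List.replicate (k - 2) 1) := by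
      rw [← b1]
      exact List.mem_map_of_mem hB
    have hc1 : 1 ≤ B.card := by
      rcases List.mem_cons.mp hc with h | h
      · omega
      · rcases List.mem_cons.mp h with h | h
        · omega
        · have := List.eq_of_mem_replicate h
          omega
    apply Finset.sum_pos
    · intro i hi
      refine lt_of_lt_of_le ?_ (hub i (b3 B hB hi)).1
      have : (0 : ℝ) < μ - δ := by linarith
      positivity
    · exact Finset.card_pos.mp hc1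
  obtain ⟨ξ, ξ1, ξ2, hξ⟩ := hMV (bs.map (fun B => ∑ i ∈ B, u i)) (1 / 2) x hpos hx0
  have hsq : (fun t : ℝ => t ^ (1 / 2 : ℝ)) = Real.sqrt := by
    funext t
    exact (Real.sqrt_eq_rpow t).symm
  rw [hsq, List.length_map, hlen] at hξ
  rw [List.length_map, hlen] at hn
  obtain ⟨q1, q2, q3⟩ := sel_small μ δ Lg s1 k g hμ hL hs hδ h10 hkL hgμ
  have hη0 : 0 ≤ (8 * s1 + 5 + (2 * g + k) * (4 * μ * (μ + 1))) / (4 * (s1 : ℝ) ^ 2) := by
    positivity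
  have hk1 : (1 : ℝ) ≤ k := by exact_mod_cast (by omega : 1 ≤ k)
  have hη1 : (8 * s1 + 5 + (2 * g + k) * (4 * μ * (μ + 1))) / (4 * (s1 : ℝ) ^ 2) ≤ 1 := by
    have := mul_le_mul_of_nonneg_right hk1 hη0
    linarith
  have hξ2 : ξ ≤ 4 * (s1 : ℝ) ^ 2 *
      (1 + (8 * s1 + 5 + (2 * g + k) * (4 * μ * (μ + 1))) / (4 * (s1 : ℝ) ^ 2)) := by
    have e : 4 * (s1 : ℝ) ^ 2 *
        (1 + (8 * s1 + 5 + (2 * g + k) * (4 * μ * (μ + 1))) / (4 * (s1 : ℝ) ^ 2)) =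
        4 * (s1 : ℝ) ^ 2 + (8 * s1 + 5 + (2 * g + k) * (4 * μ * (μ + 1))) := by
      field_simp
    rw [e]
    have e2 : ((2 * g + (k - 2) : ℕ) : ℝ) ≤ 2 * g + k := by
      have : ((k - 2 : ℕ) : ℝ) ≤ k := by exact_mod_cast Nat.sub_le k 2
      push_cast
      linarith
    have e3 : ((2 * g + (k - 2) : ℕ) : ℝ) * (4 * μ * (μ + 1)) ≤
        (2 * g + k) * (4 * μ * (μ + 1)) := mul_le_mul_of_nonneg_right e2 (by positivity)
    have e4 : 4 * ((s1 : ℝ) + 1) ^ 2 + 1 = 4 * (s1 : ℝ) ^ 2 + (8 * s1 + 5) := by ring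
    linarith
  have habs : |∏ j ∈ range k, ((1 / 2 : ℝ) - j)| = cc k := by
    rw [Finset.abs_prod]
    rfl
  have hcc : 0 ≤ cc k := by
    rw [← habs]
    exact abs_nonneg _
  have hprod : ((g ^ 2 : ℕ) : ℝ) = (g : ℝ) ^ 2 := by push_cast; rfl
  rw [hprod] at p1 p2
  obtain ⟨z1, z2⟩ := sel_size k s1 μ δ g (cc k) _ ξ _ (by omega) hS0 hM hD.le hcc hη0
    (hx1.trans ξ1) hξ2 q3 hη1 q1 q2 p1 p2 hd1 hd2
  have hQ : 0 ≤ (bs.map (fun B => ∑ i ∈ B, u i)).prod := le_trans (by positivity) p1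
  have hξ0 : 0 ≤ ξ ^ ((1 / 2 : ℝ) - k) := Real.rpow_nonneg (hx0.le.trans ξ1) _
  have hDf : |Df (bs.map (fun B => ∑ i ∈ B, u i)) Real.sqrt x| =
      (bs.map (fun B => ∑ i ∈ B, u i)).prod * cc k * ξ ^ ((1 / 2 : ℝ) - k) := by
    rw [hξ, abs_mul, abs_mul, habs, abs_of_nonneg hQ, abs_of_nonneg hξ0]
  rw [← hDf] at z1 z2
  have hε := sel_eps μ Lg s1 k W0 hμ hL hs h10 hk100 hW0
  have hn2 := hn.trans hε
  revert hn2 z1 z2
  generalize Df (bs.map (fun B => ∑ i ∈ B, u i)) Real.sqrt x = y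
  intro z1 z2 hn2
  rcases lt_trichotomy n 0 with h | h | h
  · have h1 : (n : ℝ) ≤ -1 := by exact_mod_cast (by omega : n ≤ -1)
    have := (abs_le.mp z2).1
    have := (abs_le.mp hn2).2
    linarith
  · rw [h] at hn2
    simp only [Int.cast_zero, mul_zero, sub_zero] at hn2
    linarith
  · have h1 : (1 : ℝ) ≤ n := by exact_mod_cast (by omega : 1 ≤ n)
    have := (abs_le.mp z2).2
    have := (abs_le.mp hn2).1
    linarith

end Pool.Agent.Helper95.UW
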